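import Pool.Agent.H30.VX.Targets

/-!
# MP_d32443_co: rows FFB, FFC, FFD (arithmetic of the extremal number)
-/

set_option autoImplicit false

namespace Pool.Agent.H19.VX

open Finset Pool.Agent.H48.CE Pool.Agent.H30.VR Pool.Agent.H30.VX

/-- The value of `ff` from a division with remainder. -/
theorem ff_val (k q r : ℕ) (hr : r < 2 * k) :
    rr k (2 * k * q + r + 1) = r ∧
      ff k (2 * k * q + r + 1) = q * (2 * k * (2 * k + 1)) + r * (r + 1) := by
  have h1 : (2 * k * q + r + 1 - 1) % (2 * k) = r := by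
    rw [Nat.add_sub_cancel, Nat.mul_add_mod, Nat.mod_eq_of_lt hr]
  have h2 : (2 * k * q + r + 1 - 1) / (2 * k) = q := by
    rw [Nat.add_sub_cancel, Nat.mul_add_div (by omega), Nat.div_eq_of_lt hr, Nat.add_zero]
  have h3 : rr k (2 * k * q + r + 1) = r := h1
  refine ⟨h3, ?_⟩
  unfold ff
  rw [h3, h2]

/-- Every `m ≥ 1` is of the form `2kq + r + 1`. -/
theorem ex_form (k m : ℕ) (hk : 1 ≤ k) (hm : 1 ≤ m) :
    ∃ q r : ℕ, r < 2 * k ∧ m = 2 * k * q + r + 1 := by
  refine ⟨(m - 1) / (2 * k), (m - 1) % (2 * k), Nat.mod_lt _ (by omega), ?_⟩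
  have := Nat.div_add_mod (m - 1) (2 * k)
  omega

theorem pf_FFB : T_FFB := by
  intro k m hk hm
  obtain ⟨q, r, hr, rfl⟩ := ex_form k m hk hm
  obtain ⟨h1, h2⟩ := ff_val k q r hr
  rw [h1, h2]
  refine ⟨?_, hr, ?_⟩
  · obtain ⟨x, hx⟩ : ∃ x, 2 * k = r + x := ⟨2 * k - r, by omega⟩
    have h3 : 2 * k - r = x := by omega
    have h4 : 2 * k * q + r + 1 - 1 = 2 * k * q + r := by omega
    rw [h3, h4, hx]
    ring
  · intro hle
    rcases Nat.eq_zero_or_pos q with h0 | h0
    · subst h0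
      have h4 : 2 * k * 0 + r + 1 - 1 = r := by omega
      rw [h4]
      ring
    · have h5 : 2 * k ≤ 2 * k * q := Nat.le_mul_of_pos_right _ h0
      have h6 : r = 0 := by omega
      have h7 : 2 * k * q = 2 * k * 1 := by omega
      have h8 : q = 1 := Nat.eq_of_mul_eq_mul_left (by omega) h7
      subst h6 h8
      have h4 : 2 * k * 1 + 0 + 1 - 1 = 2 * k := by omega
      rw [h4]
      ring

theorem pf_FFC : T_FFC := by
  intro k a b hk ha hb
  obtain ⟨p, r, hr, rfl⟩ := ex_form k a hk ha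
  obtain ⟨q, s, hs, rfl⟩ := ex_form k b hk hb
  obtain ⟨h1, h2⟩ := ff_val k p r hr
  obtain ⟨h3, h4⟩ := ff_val k q s hs
  rw [h1, h2, h3, h4]
  obtain ⟨x, hx⟩ : ∃ x, 2 * k = r + x := ⟨2 * k - r, by omega⟩
  obtain ⟨y, hy⟩ : ∃ y, 2 * k = s + y := ⟨2 * k - s, by omega⟩
  have h5 : 2 * k - r = x := by omega
  have h6 : 2 * k - s = y := by omega
  rw [h5, h6]
  by_cases hrs : r + s < 2 * k
  · have h7 : 2 * k * p + r + 1 + (2 * k * q + s + 1) - 1 = 2 * k * (p + q) + (r + s) + 1 := by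
      rw [Nat.mul_add]
      omega
    have h8 : min (r * s) (x * y) = r * s := by
      apply Nat.min_eq_left
      have h9 : r ≤ y := by omega
      have h10 : s ≤ x := by omega
      calc r * s ≤ y * x := Nat.mul_le_mul h9 h10
        _ = x * y := Nat.mul_comm _ _
    rw [h7, (ff_val k (p + q) (r + s) hrs).2, h8]
    ring
  · obtain ⟨t, ht⟩ : ∃ t, r + s = 2 * k + t := ⟨r + s - 2 * k, by omega⟩
    have h7 : 2 * k * p + r + 1 + (2 * k * q + s + 1) - 1 = 2 * k * (p + q + 1) + t + 1 := by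
      rw [Nat.mul_add, Nat.mul_add]
      omega
    have h8 : min (r * s) (x * y) = x * y := by
      apply Nat.min_eq_right
      have h9 : x ≤ s := by omega
      have h10 : y ≤ r := by omega
      calc x * y ≤ s * r := Nat.mul_le_mul h9 h10
        _ = r * s := Nat.mul_comm _ _
    rw [h7, (ff_val k (p + q + 1) t (by omega)).2, h8]
    have h11 : r = t + y := by omega
    have h12 : s = t + x := by omega
    have h13 : 2 * k = t + x + y := by omega
    rw [h13, h11, h12]
    ring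

theorem pf_FFD (hFFB : T_FFB) : T_FFD := by
  intro k s hk
  obtain ⟨h1, h2, h3⟩ := hFFB k (s + 1) hk (by omega)
  rw [Nat.add_sub_cancel] at h1
  by_cases hs : s ≤ 2 * k
  · rw [h3 (by omega), Nat.add_sub_cancel, Nat.mul_comm (s + 1) s]
    exact Nat.mul_le_mul_left _ (min_le_left _ _)
  · have h4 : s * min (s + 1) k ≤ s * k := Nat.mul_le_mul_left _ (min_le_right _ _)
    refine h4.trans ?_
    obtain ⟨x, hx⟩ : ∃ x, 2 * k = rr k (s + 1) + x := ⟨2 * k - rr k (s + 1), by omega⟩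
    have h5 : 2 * k - rr k (s + 1) = x := by omega
    rw [h5] at h1
    have h6 : rr k (s + 1) * x ≤ k * k := by
      have h7 : (2 * k) * (2 * k) = (rr k (s + 1) + x) * (rr k (s + 1) + x) := by rw [← hx]
      nlinarith [sq_nonneg ((rr k (s + 1) : ℤ) - x)]
    have h8 : k * k ≤ (k + 1) * s := by nlinarith
    nlinarith

end Pool.Agent.H19.VX
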